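import Mathlib
import Pool.Agent.Lib.helper21.Tens

set_option autoImplicit false

namespace Pool.Agent.H.MP_c54df4_lc

open Filter Pool.Agent.Lib.helper21.Tens

def Enl {ι : Type} (W : Ultrafilter ι) (T : Type) : Prop :=
  ∀ 𝒜 : Set (Set T), (∀ s ⊆ 𝒜, s.Finite → (⋂₀ s).Nonempty) →
    ∃ x : Germ (W : Filter ι) T, ∀ A ∈ 𝒜, x.LiftPred (· ∈ A)

def mu {ι : Type} (W : Ultrafilter ι) (F : Ultrafilter ℕ+) : Set (Germ (W : Filter ι) ℕ+) :=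
  {x | ∀ A ∈ F, x.LiftPred (· ∈ A)}

def TDvd (F G : Ultrafilter ℕ+) : Prop := ∀ A ∈ F, {n | ∃ a ∈ A, a ∣ n} ∈ G

lemma enl_of {ι T : Type} (W : Ultrafilter ι)
    (h : ∀ U : Ultrafilter T, ∃ f : ι → T, Tendsto f W U) : Enl W T := by
  intro 𝒜 h𝒜
  obtain ⟨U, hU⟩ := Ultrafilter.exists_ultrafilter_of_finite_inter_nonempty 𝒜
    fun s hs => h𝒜 _ hs s.finite_toSet
  obtain ⟨f, hf⟩ := h U
  exact ⟨f, fun A hA => Germ.liftPred_coe.2 (hf (hU hA))⟩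

lemma exists_E (T : Type) : ∃ (J : Type) (E : Ultrafilter J), ∀ {I : Type} (D : Ultrafilter I),
    Enl (tens D E) T ∧ Enl (tens D E) ℕ+ := by
  obtain ⟨J1, E1, h1⟩ := exists_univ T
  obtain ⟨J2, E2, h2⟩ := exists_univ ℕ+
  refine ⟨J1 × J2, tens E1 E2, fun D => ⟨enl_of _ fun U => ?_, enl_of _ fun U => ?_⟩⟩
  · obtain ⟨f, hf⟩ := h1 U
    exact ⟨_, (hf.comp (tendsto_fst E1 E2)).comp (tendsto_snd D _)⟩
  · obtain ⟨f, hf⟩ := h2 U
    exact ⟨_, (hf.comp (tendsto_snd E1 E2)).comp (tendsto_snd D _)⟩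

lemma mem_mu {ι : Type} (W : Ultrafilter ι) (F : Ultrafilter ℕ+) (f : ι → ℕ+) :
    (f : Germ (W : Filter ι) ℕ+) ∈ mu W F ↔ Tendsto f W F := Iff.rfl

lemma dvd_ev {ι : Type} (W : Ultrafilter ι) (f g : ι → ℕ+)
    (h : (f : Germ (W : Filter ι) ℕ+) ∣ g) : ∀ᶠ i in (W : Filter ι), f i ∣ g i := by
  obtain ⟨z, hz⟩ := h
  induction z using Germ.inductionOn with | h z => ?_
  rw [← Germ.coe_mul, Germ.coe_eq] at hz
  filter_upwards [hz] with i hi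
  exact ⟨z i, hi⟩

lemma collapse {I J : Type} (D : Ultrafilter I) (E : Ultrafilter J) (F : Ultrafilter ℕ+)
    (f : I × J → ℕ+) (s : I → Set ℕ+) (hs : ∀ i, (s i).Finite)
    (hf : Tendsto f (tens D E) F) (h : ∀ᶠ x in (tens D E : Filter (I × J)), f x ∈ s x.1) :
    ∃ g : I → ℕ+, Tendsto g D F ∧ ∀ᶠ i in (D : Filter I), g i ∈ s i := by
  have h1 : ∀ i, ∃ m, (∀ᶠ j in (E : Filter J), f (i, j) ∈ s i) →
      m ∈ s i ∧ ∀ᶠ j in (E : Filter J), f (i, j) = m := by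
    intro i
    by_cases hi : ∀ᶠ j in (E : Filter J), f (i, j) ∈ s i
    · obtain ⟨m, hm⟩ := const_of_finite E (fun j => f (i, j)) (hs i) hi
      exact ⟨m, fun _ => hm⟩
    · exact ⟨1, fun h => absurd h hi⟩
  choose g hg using h1
  rw [ev_tens] at h
  refine ⟨g, fun A hA => ?_, h.mono fun i hi => (hg i hi).1⟩
  have h2 := (ev_tens D E (fun x => f x ∈ A)).1 (hf hA)
  show ∀ᶠ i in (D : Filter I), g i ∈ A
  filter_upwards [h, h2] with i hi hi2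
  obtain ⟨j, hj1, hj2⟩ := ((hg i hi).2.and hi2).exists
  exact hj1 ▸ hj2

end Pool.Agent.H.MP_c54df4_lc
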